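import Pool.Agent.helper45.TC.Spec

/-!
# Row tc3:CO0 of MP_405bd9_al: the cover for `b = a + s`
-/

set_option autoImplicit false

open Polynomial Finset Pool.Agent.helper27.PC

namespace Pool.Agent.TC

/-- the sum of `x + 1` over the empty places of the component `c` below `n` -/
def CO0_h (n : ℕ) (c : Bool) (S : St) : ℕ := ∑ x ∈ range n, if ((c, x) : Lab) ∈ S then 0 else x + 1

theorem CO0_h_D (s a b : ℕ) (c d : Bool) (g : ℕ) (hg : g < s + a + b) (h0 : 1 ≤ a + s) :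
    CO0_h (s + a + b) d (D3 s a b c g) = if d = c then g + 1 else 0 := by
  unfold CO0_h
  by_cases h : d = c
  · rw [if_pos h, Finset.sum_eq_single g]
    · rw [if_neg]
      rw [mem_D3]
      rintro (h' | h')
      · have := (Prod.mk.inj h').2
        omega
      · exact h'.1 (by rw [h])
    · intro x hx hxg
      rw [Finset.mem_range] at hx
      rw [if_pos]
      rw [mem_D3]
      exact Or.inr ⟨fun h' => hxg (Prod.mk.inj h').2, hx⟩
    · intro h'
      exact absurd (Finset.mem_range.2 hg) h'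
  · rw [if_neg h]
    refine Finset.sum_eq_zero fun x hx => ?_
    rw [if_pos]
    rw [mem_D3]
    exact Or.inr ⟨fun h' => h (Prod.mk.inj h').1, Finset.mem_range.1 hx⟩

theorem CO0_h_T (s a b : ℕ) (c d : Bool) (x₁ x₂ : ℕ) (h1 : x₁ < s + a + b) (h2 : x₂ < s + a + b)
    (h3 : s + a + b ≤ x₁ + s) (h4 : s + a + b ≤ x₂ + a) :
    CO0_h (s + a + b) d (T2 s a b c x₁ x₂) = if d = c then x₁ + 1 else x₂ + 1 := by
  unfold CO0_h
  by_cases h : d = c
  · have hc : d ≠ !c := by rw [h]; cases c <;> simp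
    rw [if_pos h, Finset.sum_eq_single x₁]
    · rw [if_neg]
      rw [mem_T2]
      rintro (h' | ⟨-, h' | h'⟩)
      · exact hc (Prod.mk.inj h').1
      · have := (Prod.mk.inj h').2
        omega
      · exact h'.1 (by rw [h])
    · intro x hx hxg
      rw [Finset.mem_range] at hx
      rw [if_pos]
      rw [mem_T2]
      exact Or.inr ⟨fun h' => hc (Prod.mk.inj h').1, Or.inr ⟨fun h' => hxg (Prod.mk.inj h').2, hx⟩⟩
    · intro h'
      exact absurd (Finset.mem_range.2 h1) h'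
  · have hc : d = !c := by
      revert h
      cases d <;> cases c <;> simp
    rw [if_neg h, Finset.sum_eq_single x₂]
    · rw [if_neg]
      rw [mem_T2]
      rintro (h' | ⟨h', -⟩)
      · have := (Prod.mk.inj h').2
        omega
      · exact h' (by rw [hc])
    · intro x hx hxg
      rw [Finset.mem_range] at hx
      rw [if_pos]
      rw [mem_T2]
      exact Or.inr ⟨fun h' => hxg (Prod.mk.inj h').2, Or.inr ⟨fun h' => h (Prod.mk.inj h').1, hx⟩⟩
    · intro h'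
      exact absurd (Finset.mem_range.2 h2) h'

/-- the index type of the cover -/
abbrev CO0_I : Type := (Bool × ℕ) ⊕ ((Bool × ℕ) ⊕ ((Bool × Bool) ⊕ (Bool × Bool)))

/-- the index set -/
def CO0_K (a u : ℕ) : Finset CO0_I :=
  ((univ ×ˢ range (2 * u)).erase (true, 2 * u - 1)).disjSum (((univ ×ˢ range (2 * u)).erase (false, 0)).disjSum
    ((univ : Finset (Bool × Bool)).disjSum (if 2 * u < a then univ else ∅)))

/-- the conditions on the indices -/
def CO0_V (a u : ℕ) : CO0_I → Prop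
  | .inl (c, i) => i < 2 * u ∧ (c = true → i + 1 < 2 * u)
  | .inr (.inl (c, i)) => i < 2 * u ∧ (c = false → 1 ≤ i)
  | .inr (.inr (.inl _)) => True
  | .inr (.inr (.inr _)) => 2 * u < a

/-- the pairs -/
def CO0_f (a u : ℕ) : CO0_I → St × Lab
  | .inl (c, i) => (D3 (2 * u) a (a + 2 * u) c (a + (a + 2 * u) + i), (!c, sh c (a + (a + 2 * u) + i)))
  | .inr (.inl (c, i)) => (D3 (2 * u) a (a + 2 * u) c ((a + 2 * u) + i), (!c, sh c ((a + 2 * u) + i)))
  | .inr (.inr (.inl (c, true))) => (T2 (2 * u) a (a + 2 * u) c (a + (a + 2 * u) + (u - ix c)) (2 * u + (a + 2 * u) + (a - u - 1 + ix c)),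
      (c, 2 * (a + 2 * u) + u - ix c))
  | .inr (.inr (.inl (c, false))) => (T2 (2 * u) a (a + 2 * u) c (a + (a + 2 * u) + (u - ix c)) (2 * u + (a + 2 * u) + (u - 1 + ix c)),
      (c, (a + 2 * u) - u - ix c))
  | .inr (.inr (.inr (c, true))) => (D3 (2 * u) a (a + 2 * u) c (a + (a + 2 * u) + (u - ix c)), (!c, 2 * (a + 2 * u) + u - a - ix (!c)))
  | .inr (.inr (.inr (c, false))) => (D3 (2 * u) a (a + 2 * u) c ((a + 2 * u) + (u - ix c)), (!c, 2 * (a + 2 * u) - 3 * u - ix (!c)))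

/-- the exponents -/
def CO0_e (a u : ℕ) : CO0_I → ℕ
  | .inl (c, i) => 4 * a + 2 * (2 * u) + 2 * (a + 2 * u) + 6 * (i + ix c)
  | .inr (.inl (c, i)) => 2 * (a + 2 * u) + 6 * (i + ix c)
  | .inr (.inr (.inl (_, true))) => 2 * (a + 2 * u) + 5 * (2 * u) + 4 * a
  | .inr (.inr (.inl (_, false))) => 2 * (a + 2 * u) + 3 * (2 * u)
  | .inr (.inr (.inr (_, true))) => 2 * (a + 2 * u) + 7 * (2 * u) + 2 * a
  | .inr (.inr (.inr (_, false))) => 2 * (a + 2 * u) + 2 * u + 2 * a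

/-- the multiplicities -/
def CO0_m (a u : ℕ) : CO0_I → ℤ
  | .inl _ => 1
  | .inr (.inl _) => 1
  | .inr (.inr (.inl _)) => if 2 * u = a then 2 else 1
  | .inr (.inr (.inr _)) => 1

theorem CO0_memV (a u : ℕ) (hu : 1 ≤ u) (i : CO0_I) (hi : i ∈ CO0_K a u) : CO0_V a u i := by
  unfold CO0_K at hi
  rcases i with ⟨c, i⟩ | ⟨c, i⟩ | i | i
  · rw [Finset.inl_mem_disjSum, Finset.mem_erase, Finset.mem_product, Finset.mem_range] at hi
    obtain ⟨h1, -, h2⟩ := hi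
    refine ⟨h2, fun hc => ?_⟩
    simp only at h2
    by_contra h3
    exact h1 (by rw [hc]; congr 1; omega)
  · rw [Finset.inr_mem_disjSum, Finset.inl_mem_disjSum, Finset.mem_erase, Finset.mem_product, Finset.mem_range] at hi
    obtain ⟨h1, -, h2⟩ := hi
    refine ⟨h2, fun hc => ?_⟩
    by_contra h3
    exact h1 (by rw [hc]; congr 1; omega)
  · trivial
  · rw [Finset.inr_mem_disjSum, Finset.inr_mem_disjSum, Finset.inr_mem_disjSum] at hi
    by_cases h : 2 * u < a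
    · exact h
    · rw [if_neg h] at hi
      exact absurd hi (Finset.notMem_empty _)

/-- the four numbers of an index -/
def CO0_N (a u : ℕ) : CO0_I → ℕ × ℕ × ℕ × ℕ
  | .inl (c, i) => if c then (a + (a + 2 * u) + i + 1, 0, 0, a + (a + 2 * u) + i + 1) else
      (0, a + (a + 2 * u) + i + 1, 1, a + (a + 2 * u) + i - 1)
  | .inr (.inl (c, i)) => if c then ((a + 2 * u) + i + 1, 0, 0, (a + 2 * u) + i + 1) else
      (0, (a + 2 * u) + i + 1, 1, (a + 2 * u) + i - 1)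
  | .inr (.inr (.inl (c, true))) => if c then (a + (a + 2 * u) + (u - 1) + 1, 2 * u + (a + 2 * u) + (a - u - 1 + 1) + 1, 1, 2 * (a + 2 * u) + u - 1) else
      (2 * u + (a + 2 * u) + (a - u - 1 + 0) + 1, a + (a + 2 * u) + (u - 0) + 1, 0, 2 * (a + 2 * u) + u - 0)
  | .inr (.inr (.inl (c, false))) => if c then (a + (a + 2 * u) + (u - 1) + 1, 2 * u + (a + 2 * u) + (u - 1 + 1) + 1, 1, (a + 2 * u) - u - 1) else
      (2 * u + (a + 2 * u) + (u - 1 + 0) + 1, a + (a + 2 * u) + (u - 0) + 1, 0, (a + 2 * u) - u - 0)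
  | .inr (.inr (.inr (c, true))) => if c then (a + (a + 2 * u) + (u - 1) + 1, 0, 0, 2 * (a + 2 * u) + u - a - 0) else
      (0, a + (a + 2 * u) + (u - 0) + 1, 1, 2 * (a + 2 * u) + u - a - 1)
  | .inr (.inr (.inr (c, false))) => if c then ((a + 2 * u) + (u - 1) + 1, 0, 0, 2 * (a + 2 * u) - 3 * u - 0) else
      (0, (a + 2 * u) + (u - 0) + 1, 1, 2 * (a + 2 * u) - 3 * u - 1)

/-- the four numbers of a pair -/
def CO0_M (n : ℕ) (p : St × Lab) : ℕ × ℕ × ℕ × ℕ := (CO0_h n true p.1, CO0_h n false p.1, ix p.2.1, p.2.2)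

theorem CO0_MN (a u : ℕ) (hu : 1 ≤ u) (ha : 2 * u ≤ a) (i : CO0_I) (hi : CO0_V a u i) :
    CO0_M (2 * u + a + (a + 2 * u)) (CO0_f a u i) = CO0_N a u i := by
  rcases i with ⟨c, i⟩ | ⟨c, i⟩ | ⟨c, q⟩ | ⟨c, q⟩
  · obtain ⟨h1, h2⟩ := hi
    unfold CO0_M CO0_f
    simp only
    rw [CO0_h_D _ _ _ _ _ _ (by omega) (by omega), CO0_h_D _ _ _ _ _ _ (by omega) (by omega)]
    cases c <;> simp [CO0_N, ix, sh]
  · obtain ⟨h1, h2⟩ := hi
    unfold CO0_M CO0_f
    simp only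
    rw [CO0_h_D _ _ _ _ _ _ (by omega) (by omega), CO0_h_D _ _ _ _ _ _ (by omega) (by omega)]
    cases c <;> simp [CO0_N, ix, sh]
  · cases q
    · unfold CO0_M CO0_f
      simp only
      rw [CO0_h_T _ _ _ _ _ _ _ (by cases c <;> simp [ix] <;> omega) (by cases c <;> simp [ix] <;> omega)
        (by cases c <;> simp [ix] <;> omega) (by cases c <;> simp [ix] <;> omega),
        CO0_h_T _ _ _ _ _ _ _ (by cases c <;> simp [ix] <;> omega) (by cases c <;> simp [ix] <;> omega)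
        (by cases c <;> simp [ix] <;> omega) (by cases c <;> simp [ix] <;> omega)]
      cases c <;> simp [CO0_N, ix]
    · unfold CO0_M CO0_f
      simp only
      rw [CO0_h_T _ _ _ _ _ _ _ (by cases c <;> simp [ix] <;> omega) (by cases c <;> simp [ix] <;> omega)
        (by cases c <;> simp [ix] <;> omega) (by cases c <;> simp [ix] <;> omega),
        CO0_h_T _ _ _ _ _ _ _ (by cases c <;> simp [ix] <;> omega) (by cases c <;> simp [ix] <;> omega)
        (by cases c <;> simp [ix] <;> omega) (by cases c <;> simp [ix] <;> omega)]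
      cases c <;> simp [CO0_N, ix]
  · cases q
    · unfold CO0_M CO0_f
      simp only
      rw [CO0_h_D _ _ _ _ _ _ (by cases c <;> simp [ix] <;> omega) (by omega),
        CO0_h_D _ _ _ _ _ _ (by cases c <;> simp [ix] <;> omega) (by omega)]
      cases c <;> simp [CO0_N, ix]
    · unfold CO0_M CO0_f
      simp only
      rw [CO0_h_D _ _ _ _ _ _ (by cases c <;> simp [ix] <;> omega) (by omega),
        CO0_h_D _ _ _ _ _ _ (by cases c <;> simp [ix] <;> omega) (by omega)]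
      cases c <;> simp [CO0_N, ix]

theorem CO0_inj (a u : ℕ) (hu : 1 ≤ u) (ha : 2 * u ≤ a) (i j : CO0_I) (hi : CO0_V a u i) (hj : CO0_V a u j)
    (h : CO0_N a u i = CO0_N a u j) : i = j := by
  rcases i with ⟨c, i⟩ | ⟨c, i⟩ | ⟨c, q⟩ | ⟨c, q⟩ <;> rcases j with ⟨c', i'⟩ | ⟨c', i'⟩ | ⟨c', q'⟩ | ⟨c', q'⟩ <;>
    cases c <;> cases c' <;> (try cases q) <;> (try cases q') <;>
    simp only [CO0_N, CO0_V, if_true, if_false, Bool.false_eq_true, Prod.mk.injEq, reduceCtorEq, false_imp_iff, forall_const, and_true,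
      false_and, and_false] at hi hj h <;>
    first
      | rfl
      | (exfalso; omega)
      | (have hii : i = i' := by omega
         rw [hii])

theorem CO0_mul (ε : ℤ) (p q e : ℕ) (Y W : ℤ[X]) (hY : Y = C ε * X ^ p) (hW : W ^ 2 = X ^ q) (h : 2 * p + q = e) :
    Y ^ 2 * W ^ 2 = C (ε ^ 2) * X ^ e := by
  rw [hY, hW, mul_pow, ← C_pow, ← pow_mul, mul_assoc, ← pow_add, ← h, mul_comm p 2]

theorem CO0_one (ε : ℤ) (h : ε = 1 ∨ ε = -1) : (1 : ℤ) ≤ ε ^ 2 := by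
  rcases h with h | h <;> rw [h] <;> norm_num

theorem CO0_ok (hYV1 : YV1_stmt) (hYV2 : YV2_stmt) (a u : ℕ) (hu : 1 ≤ u) (ha : 2 * u ≤ a) (i : CO0_I) (hi : CO0_V a u i) :
    (CO0_f a u i).2 ∈ addable (a + 2 * u) (CO0_f a u i).1 ∧ ∃ ε : ℤ, CO0_m a u i ≤ ε ^ 2 ∧
      yv (2 * u) a (a + 2 * u) (CO0_f a u i).1 ^ 2 * wl (CO0_f a u i).2 ^ 2 = C (ε ^ 2) * X ^ CO0_e a u i := by
  rcases i with ⟨c, i⟩ | ⟨c, i⟩ | ⟨c, q⟩ | ⟨c, q⟩
  · obtain ⟨h1, h2⟩ := hi
    obtain ⟨⟨ε, hε, h⟩, -⟩ := hYV1 (2 * u) a (a + 2 * u) (by omega) ha (by omega) c i h1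
    refine ⟨?_, ε, CO0_one ε hε, ?_⟩
    · rw [mem_ad]
      cases c <;> simp [CO0_f, mem_D3, up, sh] at h2 ⊢ <;> omega
    · refine CO0_mul ε _ _ _ _ _ h (wl_sq _) ?_
      cases c <;> simp [CO0_f, CO0_e, ix, sh] <;> omega
  · obtain ⟨h1, h2⟩ := hi
    obtain ⟨-, ε, hε, h⟩ := hYV1 (2 * u) a (a + 2 * u) (by omega) ha (by omega) c i h1
    refine ⟨?_, ε, CO0_one ε hε, ?_⟩
    · rw [mem_ad]
      cases c <;> simp [CO0_f, mem_D3, up, sh] at h2 ⊢ <;> omega
    · refine CO0_mul ε _ _ _ _ _ h (wl_sq _) ?_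
      cases c <;> simp [CO0_f, CO0_e, ix, sh] at h2 ⊢ <;> omega
  · have hm : ∀ ε : ℤ, ε ^ 2 = (if 2 * u = a then 4 else 1) → (if 2 * u = a then (2 : ℤ) else 1) ≤ ε ^ 2 := by
      intro ε h
      rw [h]
      split_ifs <;> norm_num
    cases q
    · obtain ⟨ε, hε, h⟩ := hYV2 (2 * u) a (a + 2 * u) (by omega) ha (by omega) c (u - ix c) (u - 1 + ix c)
        (by omega) (by cases c <;> simp [ix] <;> omega)
      refine ⟨?_, ε, hm ε hε, ?_⟩
      · rw [mem_ad]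
        cases c <;> simp [CO0_f, mem_T2, up, ix] <;> omega
      · refine CO0_mul ε _ _ _ _ _ h (wl_sq _) ?_
        cases c <;> simp [CO0_f, CO0_e, ix] <;> omega
    · obtain ⟨ε, hε, h⟩ := hYV2 (2 * u) a (a + 2 * u) (by omega) ha (by omega) c (u - ix c) (a - u - 1 + ix c)
        (by omega) (by cases c <;> simp [ix] <;> omega)
      refine ⟨?_, ε, hm ε hε, ?_⟩
      · rw [mem_ad]
        cases c <;> simp [CO0_f, mem_T2, up, ix] <;> omega
      · refine CO0_mul ε _ _ _ _ _ h (wl_sq _) ?_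
        cases c <;> simp [CO0_f, CO0_e, ix] <;> omega
  · have hi' : 2 * u < a := hi
    cases q
    · obtain ⟨-, ε, hε, h⟩ := hYV1 (2 * u) a (a + 2 * u) (by omega) ha (by omega) c (u - ix c) (by omega)
      refine ⟨?_, ε, CO0_one ε hε, ?_⟩
      · rw [mem_ad]
        cases c <;> simp [CO0_f, mem_D3, up, ix] <;> omega
      · refine CO0_mul ε _ _ _ _ _ h (wl_sq _) ?_
        cases c <;> simp [CO0_f, CO0_e, ix] <;> omega
    · obtain ⟨⟨ε, hε, h⟩, -⟩ := hYV1 (2 * u) a (a + 2 * u) (by omega) ha (by omega) c (u - ix c) (by omega)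
      refine ⟨?_, ε, CO0_one ε hε, ?_⟩
      · rw [mem_ad]
        cases c <;> simp [CO0_f, mem_D3, up, ix] <;> omega
      · refine CO0_mul ε _ _ _ _ _ h (wl_sq _) ?_
        cases c <;> simp [CO0_f, CO0_e, ix] <;> omega

theorem CO0_sum (a u : ℕ) (hu : 1 ≤ u) (ha : 2 * u ≤ a) :
    ∑ i ∈ CO0_K a u, C (CO0_m a u i) * X ^ CO0_e a u i =
    (∑ c : Bool, ∑ i ∈ range (2 * u), (X ^ (4 * a + 2 * (2 * u) + 2 * (a + 2 * u) + 6 * (i + ix c)) + X ^ (2 * (a + 2 * u) + 6 * (i + ix c))) -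
    X ^ (4 * a + 8 * (2 * u) + 2 * (a + 2 * u)) - X ^ (2 * (a + 2 * u)) + 2 * X ^ (2 * (a + 2 * u) + 5 * (2 * u) + 4 * a) +
    2 * X ^ (2 * (a + 2 * u) + 7 * (2 * u) + 2 * a) + 2 * X ^ (2 * (a + 2 * u) + 2 * u + 2 * a) +
    2 * X ^ (2 * (a + 2 * u) + 3 * (2 * u)) : ℤ[X]) := by
  unfold CO0_K
  rw [Finset.sum_disjSum, Finset.sum_disjSum, Finset.sum_disjSum]
  have h0 : ((true, 2 * u - 1) : Bool × ℕ) ∈ (univ ×ˢ range (2 * u) : Finset (Bool × ℕ)) := by
    rw [Finset.mem_product, Finset.mem_range]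
    exact ⟨Finset.mem_univ _, by show 2 * u - 1 < 2 * u; omega⟩
  have h1 : ((false, 0) : Bool × ℕ) ∈ (univ ×ˢ range (2 * u) : Finset (Bool × ℕ)) := by
    rw [Finset.mem_product, Finset.mem_range]
    exact ⟨Finset.mem_univ _, by show 0 < 2 * u; omega⟩
  rw [Finset.sum_erase_eq_sub h0, Finset.sum_erase_eq_sub h1, Finset.sum_product, Finset.sum_product]
  have e0 : CO0_e a u (.inl (true, 2 * u - 1)) = 4 * a + 8 * (2 * u) + 2 * (a + 2 * u) := by
    simp only [CO0_e, ix, if_true]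
    omega
  have e1 : CO0_e a u (.inr (.inl (false, 0))) = 2 * (a + 2 * u) := by
    simp [CO0_e, ix]
  have s2 : ∑ x : Bool × Bool, C (CO0_m a u (.inr (.inr (.inl x)))) * X ^ CO0_e a u (.inr (.inr (.inl x))) =
      C (if 2 * u = a then (2 : ℤ) else 1) * (2 * X ^ (2 * (a + 2 * u) + 5 * (2 * u) + 4 * a) + 2 * X ^ (2 * (a + 2 * u) + 3 * (2 * u))) := by
    rw [Fintype.sum_prod_type]
    simp only [Fintype.sum_bool, CO0_m, CO0_e]
    ring
  have s3 : ∑ x : Bool × Bool, C (CO0_m a u (.inr (.inr (.inr x)))) * X ^ CO0_e a u (.inr (.inr (.inr x))) =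
      2 * X ^ (2 * (a + 2 * u) + 7 * (2 * u) + 2 * a) + 2 * X ^ (2 * (a + 2 * u) + 2 * u + 2 * a) := by
    rw [Fintype.sum_prod_type]
    simp only [Fintype.sum_bool, CO0_m, CO0_e, C_1, one_mul]
    ring
  rw [e0, e1, s2]
  by_cases h : 2 * u = a
  · rw [if_pos h, if_neg (by omega), Finset.sum_empty]
    have e2 : 2 * (a + 2 * u) + 7 * (2 * u) + 2 * a = 2 * (a + 2 * u) + 5 * (2 * u) + 4 * a := by omega
    have e3 : 2 * (a + 2 * u) + 2 * u + 2 * a = 2 * (a + 2 * u) + 3 * (2 * u) := by omega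
    rw [e2, e3, C_ofNat]
    simp only [CO0_m, C_1, one_mul, CO0_e, Finset.sum_add_distrib]
    ring
  · rw [if_neg h, if_pos (by omega), s3, C_1]
    simp only [CO0_m, C_1, one_mul, CO0_e, Finset.sum_add_distrib]
    ring

theorem CO0 (hCVG : CVG_stmt) (hYV1 : YV1_stmt) (hYV2 : YV2_stmt) : CO0_stmt := by
  intro s a b u hu hs hsa hb k
  subst hs
  subst hb
  rw [← CO0_sum a u hu hsa]
  refine hCVG (2 * u) a (a + 2 * u) (by omega) hsa CO0_I (CO0_K a u) (CO0_f a u) (CO0_e a u) (CO0_m a u) ?_ ?_ k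
  · intro i hi j hj hij
    have hVi := CO0_memV a u hu i hi
    have hVj := CO0_memV a u hu j hj
    refine CO0_inj a u hu hsa i j hVi hVj ?_
    rw [← CO0_MN a u hu hsa i hVi, ← CO0_MN a u hu hsa j hVj, hij]
  · intro i hi
    exact CO0_ok hYV1 hYV2 a u hu hsa i (CO0_memV a u hu i hi)

end Pool.Agent.TC
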